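import Pool.Agent.Y933.KI.General

/-!
# The exponent pair bound for almost all translates of every admissible function

Let `f` be admissible at scale `N` with parameter `F` in the sense of the exponent pair conjecture (only the lower bounds
for the derivatives are used). For arbitrary real numbers `r n` we consider the translated sums
`∑ e (f (n + u) + r n)` over intervals of integers `n` with `n + u ∈ [N, 2 N]`. The measure of the set of the `u ∈ [a, b]` for
which one of these sums is larger than `N ^ (1/2) V` is at most `K (1 + log N) ^ 3 ((b - a) + N ^ 2 / F) / V ^ 2`, with `K`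
depending only on the constants `c j`. In particular, if `F ≥ N ^ 2`, the bound `K N ^ (1/2 + ε)` of the conjecture, for all
intervals at once, holds for all `u ∈ [0, 1]` outside a set of measure at most `N ^ (-ε)`; if `F < N ^ 2`, the same is true
in all intervals of length at least `N ^ 2 / F` (at most `N`), up to a set of relative measure at most `N ^ (-ε)`.

Proof: mean square over `u`, with the first derivative test for the functions `f (n + u) - f (m + u)` and the
Rademacher-Menshov device (`Pool.Agent.Y933.KI.General`, starting files).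
-/

set_option autoImplicit false

namespace Pool.Agent.Results.MP_493793_nt.AlmostAllTranslates

open MeasureTheory Set

/-- `f` is smooth on `[N, 2 N]`, with the lower bounds `c j F / N ^ j` for the absolute values of its derivatives: every
function which is admissible at scale `N` with parameter `F` for the constants `(c j, C j)` has this property. -/
def Admissible (c : ℕ → ℝ) (N F : ℝ) (f : ℝ → ℝ) : Prop :=
  2 ≤ N ∧ N ≤ F ∧ ContDiffOn ℝ (⊤ : ℕ∞) f (Icc N (2 * N)) ∧
    ∀ j : ℕ, ∀ x ∈ Icc N (2 * N), c j * F / N ^ j ≤ |iteratedDerivWithin j f (Icc N (2 * N)) x|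

/-- The translates `u ∈ [a, b]` for which, for some `N ≤ N1` and `N2 + u ≤ 2 N`, the absolute value of
`∑ e (f (n + u) + r n)`, `N1 ≤ n ≤ N2`, is larger than `X`. -/
def BadTranslates (N : ℝ) (f : ℝ → ℝ) (r : ℕ → ℝ) (a b X : ℝ) : Set ℝ :=
  {u : ℝ | u ∈ Icc a b ∧ ∃ N1 N2 : ℕ, N ≤ N1 ∧ (N2 : ℝ) + u ≤ 2 * N ∧
    X < ‖∑ n ∈ Finset.Icc N1 N2,
      Complex.exp (2 * (Real.pi : ℂ) * Complex.I * ((f ((n : ℝ) + u) + r n : ℝ) : ℂ))‖}

lemma log_cube {ε N : ℝ} (hε : 0 < ε) (hN : 2 ≤ N) :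
    (1 + Real.log N) ^ 3 ≤ (1 + 3 / ε) ^ 3 * N ^ ε := by
  have hN0 : 0 < N := by linarith
  have h1 : Real.log N ≤ N ^ (ε / 3) / (ε / 3) := Real.log_le_rpow_div hN0.le (by positivity)
  have h2 : (1 : ℝ) ≤ N ^ (ε / 3) := Real.one_le_rpow (by linarith) (by positivity)
  have h3 : 1 + Real.log N ≤ (1 + 3 / ε) * N ^ (ε / 3) := by
    have h4 : N ^ (ε / 3) / (ε / 3) = 3 / ε * N ^ (ε / 3) := by field_simp
    rw [h4] at h1
    nlinarith
  have h5 : 0 ≤ 1 + Real.log N := by
    have := Real.log_nonneg (by linarith : (1 : ℝ) ≤ N)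
    linarith
  calc (1 + Real.log N) ^ 3 ≤ ((1 + 3 / ε) * N ^ (ε / 3)) ^ 3 := pow_le_pow_left₀ h5 h3 3
    _ = (1 + 3 / ε) ^ 3 * N ^ ε := by
      rw [mul_pow, ← Real.rpow_natCast (N ^ (ε / 3)) 3, ← Real.rpow_mul hN0.le]
      congr 2
      push_cast
      ring

/-- (1) The measure bound, for every admissible function, arbitrary real numbers `r n`, every interval of translates and
every `V > 0`. (2) If `b - a ≥ N ^ 2 / F`, then outside a set of relative measure at most `N ^ (-ε)` of the translates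
`u ∈ [a, b]` the bound `K N ^ (1/2) N ^ ε` holds. The constants depend only on `c` (and `ε`). -/
theorem result (c : ℕ → ℝ) (hc : ∀ j, 0 < c j) :
    (∃ K : ℝ, ∀ (N F : ℝ) (f : ℝ → ℝ), Admissible c N F f → ∀ (r : ℕ → ℝ) (a b V : ℝ), 0 ≤ a → a ≤ b → 0 < V →
      volume (BadTranslates N f r a b (N ^ (1 / 2 : ℝ) * V)) ≤
        ENNReal.ofReal (K * (1 + Real.log N) ^ 3 * ((b - a) + N ^ 2 / F) / V ^ 2)) ∧
    ∀ ε : ℝ, 0 < ε → ∃ K : ℝ, ∀ (N F : ℝ) (f : ℝ → ℝ), Admissible c N F f → ∀ (r : ℕ → ℝ) (a b : ℝ),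
      0 ≤ a → N ^ 2 / F ≤ b - a →
      volume (BadTranslates N f r a b (K * N ^ (1 / 2 : ℝ) * N ^ ε)) ≤ ENNReal.ofReal (N ^ (-ε) * (b - a)) := by
  obtain ⟨K, hK⟩ := Pool.Agent.Y933.KI.general c hc
  have hfirst : ∀ (N F : ℝ) (f : ℝ → ℝ), Admissible c N F f → ∀ (r : ℕ → ℝ) (a b V : ℝ), 0 ≤ a → a ≤ b → 0 < V →
      volume (BadTranslates N f r a b (N ^ (1 / 2 : ℝ) * V)) ≤
        ENNReal.ofReal (K * (1 + Real.log N) ^ 3 * ((b - a) + N ^ 2 / F) / V ^ 2) := by
    intro N F f hf r a b V ha hab hV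
    obtain ⟨hN, hF, hs, hd⟩ := hf
    exact hK N F f hN hF hs hd r a b V ha hab hV
  refine ⟨⟨K, hfirst⟩, fun ε hε => ?_⟩
  set M : ℝ := max K 0 with hM
  have hM0 : 0 ≤ M := le_max_right _ _
  set R : ℝ := 2 * M * (1 + 3 / ε) ^ 3 with hR
  have hR0 : 0 ≤ R := by positivity
  refine ⟨R + 1, fun N F f hf r a b ha hab => ?_⟩
  have hN : 2 ≤ N := hf.1
  have hF : N ≤ F := hf.2.1
  have hN0 : 0 < N := by linarith
  have hF0 : 0 < F := by linarith
  have hNε : 0 < N ^ ε := Real.rpow_pos_of_pos hN0 _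
  have hq : 0 ≤ N ^ 2 / F := by positivity
  have hV : 0 < (R + 1) * N ^ ε := by positivity
  have h1 := hfirst N F f hf r a b ((R + 1) * N ^ ε) ha (by linarith) hV
  have h2 : N ^ (1 / 2 : ℝ) * ((R + 1) * N ^ ε) = (R + 1) * N ^ (1 / 2 : ℝ) * N ^ ε := by ring
  rw [h2] at h1
  refine h1.trans (ENNReal.ofReal_le_ofReal ?_)
  have h3 := log_cube hε hN
  have hL : 0 ≤ (1 + Real.log N) ^ 3 := by
    have := Real.log_nonneg (by linarith : (1 : ℝ) ≤ N)
    exact pow_nonneg (by linarith) 3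
  have h4 : K * (1 + Real.log N) ^ 3 * ((b - a) + N ^ 2 / F) ≤ R * N ^ ε * (b - a) := by
    calc K * (1 + Real.log N) ^ 3 * ((b - a) + N ^ 2 / F)
        ≤ M * (1 + Real.log N) ^ 3 * ((b - a) + N ^ 2 / F) := by
          have h6 : K ≤ M := le_max_left _ _
          exact mul_le_mul_of_nonneg_right (mul_le_mul_of_nonneg_right h6 hL) (by linarith)
      _ ≤ M * ((1 + 3 / ε) ^ 3 * N ^ ε) * (2 * (b - a)) :=
          mul_le_mul (mul_le_mul_of_nonneg_left h3 hM0) (by linarith) (by linarith) (by positivity)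
      _ = R * N ^ ε * (b - a) := by rw [hR]; ring
  have h5 : N ^ (-ε) = (N ^ ε)⁻¹ := Real.rpow_neg hN0.le ε
  have hba : 0 ≤ b - a := hq.trans hab
  rw [div_le_iff₀ (by positivity), h5]
  calc K * (1 + Real.log N) ^ 3 * ((b - a) + N ^ 2 / F) ≤ R * N ^ ε * (b - a) := h4
    _ ≤ (R + 1) ^ 2 * N ^ ε * (b - a) := by
        have h6 : R ≤ (R + 1) ^ 2 := by nlinarith
        exact mul_le_mul_of_nonneg_right (mul_le_mul_of_nonneg_right h6 hNε.le) hba
    _ = (N ^ ε)⁻¹ * (b - a) * ((R + 1) * N ^ ε) ^ 2 := by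
        field_simp

end Pool.Agent.Results.MP_493793_nt.AlmostAllTranslates
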