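import Pool.Agent.X111.AT.Cv

/-!
# Exponential sums `∑ a_n e(t f(n) + α n)` for almost all `α`

Let `|f''| ≥ c F / N²` on `[N, 2N]` (for instance `f` admissible at scale `N` with parameter `F`, `c = c_2`),
`|a_n| ≤ 1` and `S_t = ∑_{N ≤ n ≤ 2N} a_n e(t f(n) + α n)`. For all `α ∈ [0, 1]` outside a set of measure at
most `δ`: `∫_0^U |S_t|⁴ dt ≤ (8 / δ) (N² U + (1 + log 2N)² N³ / (c F))`, and the `t ∈ [0, U]` with
`|S_t| ≥ V` have measure at most `(8 / δ) (N² U + (1 + log 2N)² N³ / (c F)) / V⁴`.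
-/

set_option autoImplicit false

namespace Pool.Agent.Results.MP_493793_nt.FourthMomentLinearTwists

open Finset MeasureTheory Pool.Agent.X111.AT

/-- `∑_{N ≤ n ≤ 2N} a_n e(t f(n) + α n)`, `e(x) = exp(2 π i x)` -/
noncomputable def S (N : ℕ) (a : ℕ → ℂ) (f : ℝ → ℝ) (α t : ℝ) : ℂ :=
  ∑ n ∈ Icc N (2 * N), a n * Complex.exp ((2 * Real.pi * (t * f n + α * n) : ℝ) * Complex.I)

theorem S_sq (N : ℕ) (a : ℕ → ℂ) (f : ℝ → ℝ) (α t : ℝ) :
    S N a f α t ^ 2 = GG (Icc N (2 * N) ×ˢ Icc N (2 * N)) (fun p => a p.1 * a p.2) kk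
      (fun p => 2 * Real.pi * (f p.1 + f p.2)) α t := by
  rw [sq, S, Finset.sum_mul_sum, GG, sum_product]
  refine sum_congr rfl fun m _ => sum_congr rfl fun n _ => ?_
  rw [mul_mul_mul_comm, ← Complex.exp_add]
  congr 2
  unfold kk
  push_cast
  ring

/-- **Theorem.** -/
theorem result (N : ℕ) (hN : 1 ≤ N) (c F : ℝ) (hc : 0 < c) (hF : 0 < F) (f f' f'' : ℝ → ℝ)
    (h1 : ∀ x ∈ Set.Icc (N : ℝ) (2 * N), HasDerivAt f (f' x) x)
    (h2 : ∀ x ∈ Set.Icc (N : ℝ) (2 * N), HasDerivAt f' (f'' x) x)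
    (h3 : ∀ x ∈ Set.Icc (N : ℝ) (2 * N), c * F / (N : ℝ) ^ 2 ≤ |f'' x|)
    (a : ℕ → ℂ) (ha : ∀ n, ‖a n‖ ≤ 1) (U : ℝ) (hU : 0 < U) (δ : ℝ) (hδ : 0 < δ) :
    ∃ E : Set ℝ, MeasurableSet E ∧ volume E ≤ ENNReal.ofReal δ ∧
      ∀ α ∈ Set.Icc (0 : ℝ) 1, α ∉ E →
        ∫ t in (0 : ℝ)..U, ‖S N a f α t‖ ^ 4 ≤
          8 / δ * ((N : ℝ) ^ 2 * U + (1 + Real.log (2 * N : ℕ)) ^ 2 * (N : ℝ) ^ 3 / (c * F)) ∧
        ∀ V : ℝ, 0 < V → volume ({t | V ≤ ‖S N a f α t‖} ∩ Set.Ioc 0 U) ≤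
          ENNReal.ofReal (8 / δ *
            ((N : ℝ) ^ 2 * U + (1 + Real.log (2 * N : ℕ)) ^ 2 * (N : ℝ) ^ 3 / (c * F)) / V ^ 4) := by
  have hN0 : (0 : ℝ) < N := by exact_mod_cast hN
  have hm : 0 < c * F / (N : ℝ) ^ 2 := by positivity
  have hcount := countC N hN U (c * F / (N : ℝ) ^ 2) hU.le hm f f' f'' h1 h2 h3
  set b : ℕ × ℕ → ℂ := fun p => a p.1 * a p.2 with hb
  set lam : ℕ × ℕ → ℝ := fun p => 2 * Real.pi * (f p.1 + f p.2) with hlam
  set P : Finset (ℕ × ℕ) := Icc N (2 * N) ×ˢ Icc N (2 * N) with hP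
  set M : ℝ := 8 * ((N : ℝ) ^ 2 * U + (1 + Real.log (2 * N : ℕ)) ^ 2 * (N : ℝ) ^ 3 / (c * F)) with hM
  have hM0 : 0 < M := by positivity
  have hb1 : ∀ p ∈ P, ‖b p‖ ≤ 1 := by
    intro p _
    rw [hb, norm_mul]
    exact mul_le_one₀ (ha _) (norm_nonneg _) (ha _)
  set A : ℝ → ℝ := fun α => ∫ u in (0 : ℝ)..U, ‖GG P b kk lam α u‖ ^ 2 with hA
  have hcA : Continuous A := cont_A _ _ _ _ _
  have hAn : ∀ α, 0 ≤ A α := fun α => intervalIntegral.integral_nonneg hU.le fun u _ => by positivity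
  have i1 : ∫ α in (0 : ℝ)..1, A α ≤ M := by
    have h4 := dmv P b kk lam U 1 hU.le hb1
    rw [one_pow, one_mul] at h4
    refine (h4.trans hcount).trans (le_of_eq ?_)
    rw [hM]
    field_simp
    ring
  have h4S : ∀ α t, ‖S N a f α t‖ ^ 4 = ‖GG P b kk lam α t‖ ^ 2 := by
    intro α t
    rw [hP, hb, hlam, ← S_sq, norm_pow]
    ring
  have hdiv : 8 / δ * ((N : ℝ) ^ 2 * U + (1 + Real.log (2 * N : ℕ)) ^ 2 * (N : ℝ) ^ 3 / (c * F)) =
      M / δ := by
    rw [hM]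
    ring
  rw [hdiv]
  refine ⟨({x | M / δ ≤ A x} ∩ Set.Ioc 0 1) ∪ {0}, ?_, ?_, ?_⟩
  · exact ((measurableSet_le measurable_const hcA.measurable).inter measurableSet_Ioc).union
      (measurableSet_singleton 0)
  · refine (measure_union_le _ _).trans ?_
    rw [Real.volume_singleton, add_zero]
    have hint : Integrable A (volume.restrict (Set.Ioc (0 : ℝ) 1)) :=
      (hcA.continuousOn.integrableOn_compact isCompact_Icc).mono_set Set.Ioc_subset_Icc_self
    have e1 := mul_meas_ge_le_integral_of_nonneg (μ := volume.restrict (Set.Ioc (0 : ℝ) 1))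
      (Filter.Eventually.of_forall hAn) hint (M / δ)
    rw [← intervalIntegral.integral_of_le zero_le_one] at e1
    have e2 : (volume.restrict (Set.Ioc (0 : ℝ) 1)).real {x | M / δ ≤ A x} ≤ δ := by
      have e3 := e1.trans i1
      rw [div_mul_eq_mul_div, div_le_iff₀ hδ] at e3
      nlinarith
    rw [measureReal_def, Measure.restrict_apply (measurableSet_le measurable_const hcA.measurable)] at e2
    rw [← ENNReal.ofReal_toReal (a := volume ({x | M / δ ≤ A x} ∩ Set.Ioc 0 1))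
      (ne_top_of_le_ne_top (by simp) (measure_mono Set.inter_subset_right))]
    exact ENNReal.ofReal_le_ofReal e2
  · intro α hα hαE
    have hA1 : A α < M / δ := by
      by_contra hcc
      push Not at hcc
      apply hαE
      rcases eq_or_lt_of_le hα.1 with h0 | h0
      · exact Or.inr h0.symm
      · exact Or.inl ⟨hcc, h0, hα.2⟩
    refine ⟨?_, fun V hV => ?_⟩
    · simp_rw [h4S]
      exact hA1.le
    · have hcS : Continuous (fun t => ‖GG P b kk lam α t‖ ^ 2) := by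
        have := cont_u P b kk lam α
        fun_prop
      have hint : Integrable (fun t => ‖GG P b kk lam α t‖ ^ 2) (volume.restrict (Set.Ioc (0 : ℝ) U)) :=
        (hcS.continuousOn.integrableOn_compact isCompact_Icc).mono_set Set.Ioc_subset_Icc_self
      have e1 := mul_meas_ge_le_integral_of_nonneg (μ := volume.restrict (Set.Ioc (0 : ℝ) U))
        (Filter.Eventually.of_forall fun t => by positivity) hint (V ^ 4)
      rw [← intervalIntegral.integral_of_le hU.le] at e1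
      have hset : {t | V ≤ ‖S N a f α t‖} = {t | V ^ 4 ≤ ‖GG P b kk lam α t‖ ^ 2} := by
        ext t
        simp only [Set.mem_setOf_eq]
        rw [← h4S]
        exact (pow_le_pow_iff_left₀ hV.le (norm_nonneg _) (by norm_num)).symm
      rw [hset]
      have hms : MeasurableSet {t | V ^ 4 ≤ ‖GG P b kk lam α t‖ ^ 2} :=
        measurableSet_le measurable_const hcS.measurable
      rw [measureReal_def, Measure.restrict_apply hms] at e1
      have e2 : (volume ({t | V ^ 4 ≤ ‖GG P b kk lam α t‖ ^ 2} ∩ Set.Ioc 0 U)).toReal ≤ M / δ / V ^ 4 := by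
        rw [le_div_iff₀ (by positivity), mul_comm]
        exact e1.trans hA1.le
      rw [← ENNReal.ofReal_toReal (a := volume ({t | V ^ 4 ≤ ‖GG P b kk lam α t‖ ^ 2} ∩ Set.Ioc 0 U))
        (ne_top_of_le_ne_top (by simp) (measure_mono Set.inter_subset_right))]
      exact ENNReal.ofReal_le_ofReal e2

end Pool.Agent.Results.MP_493793_nt.FourthMomentLinearTwists
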